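import Pool.Agent.Helper700.Red.Final

set_option autoImplicit false

/-!
For every algebraically closed field `k` of characteristic three there are a finite-dimensional
restricted Lie algebra `g` (of dimension eight, with maximal toral rank one) and a character `χ`
such that `u(g, χ)` has more than `3 ^ mt(g) = 3` isomorphism classes of simple modules.
-/

namespace Pool.Agent.Results.MP_52c914_al.TooManySimples

open Pool.Agent.Helper700.Red

universe u

theorem result (k : Type u) [Field k] [IsAlgClosed k] [CharP k 3] :
    ∃ (L : Type u) (_ : LieRing L) (_ : LieAlgebra k L) (_ : FiniteDimensional k L)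
      (P : PMap 3 k L) (χ : Module.Dual k L),
      Module.finrank k L = 8 ∧ mt P = 1 ∧ MoreSimplesThan (RedEnv P χ) (3 ^ mt P) := by
  obtain ⟨t, ht⟩ := IsAlgClosed.exists_pow_nat_eq (-1 : k) (n := 2) (by norm_num)
  have h3 : (3 : k) = 0 := PL.three_eq_zero
  have h1 : (-1 : k) ≠ 1 := by
    intro h
    exact one_ne_zero (by linear_combination h3 + h : (1 : k) = 0)
  have ht0 : t ≠ 0 := by
    rintro rfl
    exact one_ne_zero (by linear_combination ht : (1 : k) = 0)
  have hmt : mt (PL.P : PMap 3 k (PL k)) = 1 := PL.mt_eq ⟨t, ht0, by rw [ht]; exact h1⟩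
  refine ⟨PL k, inferInstance, inferInstance, inferInstance, PL.P, chi, ?_, hmt, ?_⟩
  · exact Module.finrank_fin_fun k
  · rw [hmt]
    obtain ⟨I, hI, hne⟩ := four_simples k
    exact ⟨fun i => RE k ⧸ I i, inferInstance, inferInstance, hI, hne⟩

end Pool.Agent.Results.MP_52c914_al.TooManySimples
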